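import Mathlib

/-!
# A cubic graph on 34 vertices without a strong Wormald bisection

The graph consists of three copies of an 11-vertex piece, each joined by one edge to a further
vertex (the centre).
-/

set_option autoImplicit false

namespace Pool.Agent.Results.MP_3d7035_co.Counterexample

open SimpleGraph

/-- A linear forest: a forest in which every vertex has at most two neighbours (so every component
is a path, possibly a single vertex). -/
def IsLinearForest {W : Type*} (H : SimpleGraph W) : Prop :=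
  H.IsAcyclic ∧ ∀ v, (H.neighborSet v).ncard ≤ 2

/-- The spanning subgraph `G'` obtained from `G` by deleting every edge with both ends in the same
class of the partition `(S, Sᶜ)`. -/
def crossGraph {V : Type*} (G : SimpleGraph V) (S : Set V) : SimpleGraph V where
  Adj u v := G.Adj u v ∧ ¬ (u ∈ S ↔ v ∈ S)
  symm := ⟨fun _ _ h => ⟨h.1.symm, fun h' => h.2 h'.symm⟩⟩
  loopless := ⟨fun _ h => h.2 Iff.rfl⟩

/-- `(S, Sᶜ)` is a strong Wormald bisection of `G`: the two classes have the same size, they induce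
isomorphic linear forests, and in the graph `G'` of the edges between the two classes exactly one
connected component is a tree, while every other component has equally many edges and vertices. -/
structure IsStrongWormaldBisection {V : Type*} (G : SimpleGraph V) (S : Set V) : Prop where
  card_eq : S.ncard = Sᶜ.ncard
  forest_left : IsLinearForest (G.induce S)
  forest_right : IsLinearForest (G.induce Sᶜ)
  iso : Nonempty (G.induce S ≃g G.induce Sᶜ)
  cross : ∃ C₀ : (crossGraph G S).ConnectedComponent, C₀.toSimpleGraph.IsTree ∧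
    ∀ C : (crossGraph G S).ConnectedComponent, C ≠ C₀ →
      C.toSimpleGraph.edgeSet.ncard = C.supp.ncard

/-! ### Counting edges in graphs whose components have at most one cycle -/

/-- A vertex other than the root has a neighbour closer to the root. -/
theorem exists_closer {V : Type*} (H : SimpleGraph V) {v r : V} (hr : H.Reachable v r) (hne : v ≠ r) :
    ∃ w, H.Adj v w ∧ H.dist w r < H.dist v r := by
  obtain ⟨p, hp⟩ := hr.exists_walk_length_eq_dist
  cases p with
  | nil => exact absurd rfl hne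
  | cons h q =>
    refine ⟨_, h, ?_⟩
    have := H.dist_le q
    rw [Walk.length_cons] at hp
    omega

/-- In a component with at most as many edges as vertices, every set of edges spans at least as
many vertices. -/
theorem comp_bound {V : Type*} [Finite V] (H : SimpleGraph V) (C : H.ConnectedComponent)
    (hC : C.toSimpleGraph.edgeSet.ncard ≤ C.supp.ncard) (E : Set (Sym2 V)) (Y : Set V)
    (hE : ∀ e ∈ E, e ∈ H.edgeSet ∧ ∀ v ∈ e, v ∈ Y) :
    {e ∈ E | ∀ v ∈ e, v ∈ C.supp}.ncard ≤ (Y ∩ C.supp).ncard := by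
  classical
  set EC : Set (Sym2 V) := {e ∈ E | ∀ v ∈ e, v ∈ C.supp} with hEC
  rcases Set.eq_empty_or_nonempty EC with h0 | ⟨e0, he0⟩
  · rw [h0]; simp
  obtain ⟨r, hr⟩ : ∃ r, r ∈ e0 := ⟨_, Sym2.out_fst_mem e0⟩
  have hrC : r ∈ C.supp := he0.2 r hr
  have hrY : r ∈ Y := (hE e0 he0.1).2 r hr
  have hreach : ∀ v ∈ C.supp, H.Reachable v r := by
    intro v hv
    rw [ConnectedComponent.mem_supp_iff] at hv hrC
    exact ConnectedComponent.exact (hv.trans hrC.symm)
  -- parent function
  have hpar : ∀ v : V, ∃ w, v ∈ C.supp → v ≠ r → H.Adj v w ∧ H.dist w r < H.dist v r := by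
    intro v
    by_cases h : v ∈ C.supp ∧ v ≠ r
    · obtain ⟨w, hw⟩ := exists_closer H (hreach v h.1) h.2
      exact ⟨w, fun _ _ => hw⟩
    · exact ⟨v, fun h1 h2 => absurd ⟨h1, h2⟩ h⟩
  choose p hp using hpar
  -- all edges of the component
  set F : Set (Sym2 V) := {e ∈ H.edgeSet | ∀ v ∈ e, v ∈ C.supp} with hF
  have hFcard : F.ncard = C.toSimpleGraph.edgeSet.ncard := by
    have : F = Sym2.map (Subtype.val : C.supp → V) '' C.toSimpleGraph.edgeSet := by
      ext e
      induction e with
      | _ a b =>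
      simp only [hF, Set.mem_ofPred_eq, mem_edgeSet, Sym2.mem_iff, forall_eq_or_imp, forall_eq,
        Set.mem_image]
      constructor
      · rintro ⟨hab, ha, hb⟩
        exact ⟨s(⟨a, ha⟩, ⟨b, hb⟩), hab, rfl⟩
      · rintro ⟨e', he', hee⟩
        induction e' with
        | _ x y =>
        rw [Sym2.map_mk] at hee
        have hxy : H.Adj x.1 y.1 := he'
        rcases Sym2.eq_iff.1 hee with ⟨h1, h2⟩ | ⟨h1, h2⟩
        · subst h1 h2; exact ⟨hxy, x.2, y.2⟩
        · subst h1 h2; exact ⟨hxy.symm, y.2, x.2⟩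
    rw [this, Set.ncard_image_of_injective _ (Sym2.map.injective Subtype.val_injective)]
  -- tree edges
  set g : V → Sym2 V := fun v => s(v, p v) with hg
  have hginj : Set.InjOn g (C.supp \ {r}) := by
    intro u hu v hv huv
    by_contra hne
    have hu' := hp u hu.1 hu.2
    have hv' := hp v hv.1 hv.2
    rcases Sym2.eq_iff.1 huv with ⟨h1, _⟩ | ⟨h1, h2⟩
    · exact hne h1
    · have h3 : H.dist (p u) r < H.dist u r := hu'.2
      have h4 : H.dist (p v) r < H.dist v r := hv'.2
      have h5 : p u = v := h2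
      have h6 : u = p v := h1
      rw [h5] at h3
      rw [← h6] at h4
      omega
  have hpC : ∀ v ∈ C.supp, v ≠ r → p v ∈ C.supp := by
    intro v hv hne
    have h1 := (hp v hv hne).1
    rw [ConnectedComponent.mem_supp_iff] at hv ⊢
    rw [← hv]
    exact ConnectedComponent.sound h1.symm.reachable
  have hTF : g '' (C.supp \ {r}) ⊆ F := by
    rintro _ ⟨v, hv, rfl⟩
    refine ⟨(hp v hv.1 hv.2).1, ?_⟩
    intro w hw
    rcases Sym2.mem_iff.1 hw with rfl | rfl
    · exact hv.1
    · exact hpC v hv.1 hv.2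
  have hTcard : (g '' (C.supp \ {r})).ncard = C.supp.ncard - 1 := by
    rw [hginj.ncard_image, Set.ncard_sdiff_singleton_of_mem hrC]
  have hpos : 0 < C.supp.ncard := (Set.ncard_pos).2 ⟨r, hrC⟩
  have hrest : (F \ (g '' (C.supp \ {r}))).ncard ≤ 1 := by
    rw [Set.ncard_sdiff hTF, hTcard, hFcard]
    omega
  have hsub : EC ⊆ (g '' ((Y ∩ C.supp) \ {r})) ∪ (F \ (g '' (C.supp \ {r}))) := by
    intro e he
    have heF : e ∈ F := ⟨(hE e he.1).1, he.2⟩
    by_cases h : e ∈ g '' (C.supp \ {r})
    · left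
      obtain ⟨v, hv, rfl⟩ := h
      exact ⟨v, ⟨⟨(hE _ he.1).2 v (Sym2.mem_mk_left _ _), hv.1⟩, hv.2⟩, rfl⟩
    · right
      exact ⟨heF, h⟩
  have h1 : ((g '' ((Y ∩ C.supp) \ {r}))).ncard ≤ (Y ∩ C.supp).ncard - 1 := by
    refine (Set.ncard_image_le (Set.toFinite _)).trans ?_
    rw [Set.ncard_sdiff_singleton_of_mem (show r ∈ Y ∩ C.supp from ⟨hrY, hrC⟩)]
  have hpos2 : 0 < (Y ∩ C.supp).ncard := (Set.ncard_pos).2 ⟨r, hrY, hrC⟩
  have h2 := (Set.ncard_le_ncard hsub (Set.toFinite _)).trans (Set.ncard_union_le _ _)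
  omega

/-- The edges of `H` inside the component `C`. -/
theorem comp_edges {V : Type*} [Finite V] (H : SimpleGraph V) (C : H.ConnectedComponent) :
    {e ∈ H.edgeSet | ∀ v ∈ e, v ∈ C.supp}.ncard = C.toSimpleGraph.edgeSet.ncard := by
  have : {e ∈ H.edgeSet | ∀ v ∈ e, v ∈ C.supp} =
      Sym2.map (Subtype.val : C.supp → V) '' C.toSimpleGraph.edgeSet := by
    ext e
    induction e with
    | _ a b =>
    simp only [Set.mem_ofPred_eq, mem_edgeSet, Sym2.mem_iff, forall_eq_or_imp, forall_eq,
      Set.mem_image]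
    constructor
    · rintro ⟨hab, ha, hb⟩
      exact ⟨s(⟨a, ha⟩, ⟨b, hb⟩), hab, rfl⟩
    · rintro ⟨e', he', hee⟩
      induction e' with
      | _ x y =>
      rw [Sym2.map_mk] at hee
      have hxy : H.Adj x.1 y.1 := he'
      rcases Sym2.eq_iff.1 hee with ⟨h1, h2⟩ | ⟨h1, h2⟩
      · subst h1 h2; exact ⟨hxy, x.2, y.2⟩
      · subst h1 h2; exact ⟨hxy.symm, y.2, x.2⟩
  rw [this, Set.ncard_image_of_injective _ (Sym2.map.injective Subtype.val_injective)]

/-- The component of an edge. -/
noncomputable def compOf {V : Type*} (H : SimpleGraph V) (e : Sym2 V) : H.ConnectedComponent :=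
  H.connectedComponentMk (Quot.out e).1

theorem compOf_iff {V : Type*} (H : SimpleGraph V) (e : Sym2 V) (he : e ∈ H.edgeSet)
    (C : H.ConnectedComponent) : compOf H e = C ↔ ∀ v ∈ e, v ∈ C.supp := by
  have hmem : (Quot.out e).1 ∈ e := Sym2.out_fst_mem e
  constructor
  · intro h v hv
    rw [ConnectedComponent.mem_supp_iff, ← h]
    by_cases hne : v = (Quot.out e).1
    · rw [hne]; rfl
    · have : e = s(v, (Quot.out e).1) := (Sym2.mem_and_mem_iff hne).1 ⟨hv, hmem⟩
      have hadj : H.Adj v (Quot.out e).1 := by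
        rw [this] at he
        exact (mem_edgeSet H).1 he
      exact ConnectedComponent.sound hadj.reachable
  · intro h
    have := h _ hmem
    rw [ConnectedComponent.mem_supp_iff] at this
    exact this

theorem edges_in_set {V : Type*} [Finite V] (H : SimpleGraph V)
    (hC : ∀ C : H.ConnectedComponent, C.toSimpleGraph.edgeSet.ncard ≤ C.supp.ncard)
    (E : Finset (Sym2 V)) (Y : Finset V)
    (hE : ∀ e ∈ E, e ∈ H.edgeSet ∧ ∀ v ∈ e, v ∈ Y) : E.card ≤ Y.card := by
  classical
  have := Fintype.ofFinite H.ConnectedComponent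
  rw [Finset.card_eq_sum_card_fiberwise (f := compOf H) (t := Finset.univ)
      (fun x _ => Finset.mem_coe.2 (Finset.mem_univ _)),
    Finset.card_eq_sum_card_fiberwise (f := H.connectedComponentMk) (t := Finset.univ)
      (s := Y) (fun x _ => Finset.mem_coe.2 (Finset.mem_univ _))]
  refine Finset.sum_le_sum fun C _ => ?_
  have h := comp_bound H C (hC C) (E : Set (Sym2 V)) (Y : Set V) (fun e he => hE e he)
  have h1 : {e ∈ (E : Set (Sym2 V)) | ∀ v ∈ e, v ∈ C.supp} =
      ((E.filter fun e => compOf H e = C : Finset (Sym2 V)) : Set (Sym2 V)) := by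
    ext e
    simp only [Set.mem_ofPred_eq, Finset.coe_filter, Finset.mem_coe]
    constructor
    · rintro ⟨h1, h2⟩; exact ⟨h1, (compOf_iff H e (hE e h1).1 C).2 h2⟩
    · rintro ⟨h1, h2⟩; exact ⟨h1, (compOf_iff H e (hE e h1).1 C).1 h2⟩
  have h2 : ((Y : Set V) ∩ C.supp) =
      ((Y.filter fun v => H.connectedComponentMk v = C : Finset V) : Set V) := by
    ext v
    simp [ConnectedComponent.mem_supp_iff]
  rw [h1, h2, Set.ncard_coe_finset, Set.ncard_coe_finset] at h
  exact h

theorem edges_total {V : Type*} [Finite V] (H : SimpleGraph V) (C₀ : H.ConnectedComponent)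
    (h0 : C₀.supp.ncard ≤ C₀.toSimpleGraph.edgeSet.ncard + 1)
    (hC : ∀ C : H.ConnectedComponent, C ≠ C₀ →
      C.supp.ncard ≤ C.toSimpleGraph.edgeSet.ncard) :
    Nat.card V ≤ H.edgeSet.ncard + 1 := by
  classical
  have := Fintype.ofFinite H.ConnectedComponent
  have := Fintype.ofFinite V
  have hV : Nat.card V = ∑ C : H.ConnectedComponent, C.supp.ncard := by
    rw [Nat.card_eq_fintype_card, ← Finset.card_univ,
      Finset.card_eq_sum_card_fiberwise (f := H.connectedComponentMk) (t := Finset.univ)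
        (fun x _ => Finset.mem_coe.2 (Finset.mem_univ _))]
    refine Finset.sum_congr rfl fun C _ => ?_
    have h2 : C.supp =
        ((Finset.univ.filter fun v => H.connectedComponentMk v = C : Finset V) : Set V) := by
      ext v
      simp [ConnectedComponent.mem_supp_iff]
    rw [h2, Set.ncard_coe_finset]
  have hE : H.edgeSet.ncard = ∑ C : H.ConnectedComponent, C.toSimpleGraph.edgeSet.ncard := by
    rw [Set.ncard_eq_toFinset_card' H.edgeSet,
      Finset.card_eq_sum_card_fiberwise (f := compOf H) (t := Finset.univ)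
        (fun x _ => Finset.mem_coe.2 (Finset.mem_univ _))]
    refine Finset.sum_congr rfl fun C _ => ?_
    rw [← comp_edges H C]
    have h1 : {e ∈ H.edgeSet | ∀ v ∈ e, v ∈ C.supp} =
        ((H.edgeSet.toFinset.filter fun e => compOf H e = C : Finset (Sym2 V)) :
          Set (Sym2 V)) := by
      ext e
      simp only [Set.mem_ofPred_eq, Finset.coe_filter, Set.mem_toFinset]
      constructor
      · rintro ⟨h1, h2⟩; exact ⟨h1, (compOf_iff H e h1 C).2 h2⟩
      · rintro ⟨h1, h2⟩; exact ⟨h1, (compOf_iff H e h1 C).1 h2⟩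
    rw [h1, Set.ncard_coe_finset]
  rw [hV, hE]
  rw [← Finset.add_sum_erase _ _ (Finset.mem_univ C₀),
    ← Finset.add_sum_erase (Finset.univ) (fun C : H.ConnectedComponent =>
      C.toSimpleGraph.edgeSet.ncard) (Finset.mem_univ C₀)]
  have : ∑ C ∈ Finset.univ.erase C₀, C.supp.ncard ≤
      ∑ C ∈ Finset.univ.erase C₀, C.toSimpleGraph.edgeSet.ncard :=
    Finset.sum_le_sum fun C hCm => hC C (Finset.ne_of_mem_erase hCm)
  omega

/-! ### The 11-vertex piece -/

def nb : Fin 11 → Fin 3 → Option (Fin 11)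
  | 0 => ![none, some 3, some 4]
  | 1 => ![some 3, some 4, some 5]
  | 2 => ![some 3, some 4, some 6]
  | 3 => ![some 0, some 1, some 2]
  | 4 => ![some 0, some 1, some 2]
  | 5 => ![some 1, some 7, some 8]
  | 6 => ![some 2, some 9, some 10]
  | 7 => ![some 5, some 9, some 10]
  | 8 => ![some 5, some 9, some 10]
  | 9 => ![some 6, some 7, some 8]
  | 10 => ![some 6, some 7, some 8]

def val (γ : Bool) (cg : Fin 11 → Bool) : Option (Fin 11) → Bool
  | none => γ
  | some k => cg k

def mdL (γ : Bool) (cg : Fin 11 → Bool) (j : Fin 11) : ℕ :=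
  ∑ t : Fin 3, if val γ cg (nb j t) = cg j then 1 else 0

def cutL (γ : Bool) (cg : Fin 11 → Bool) : ℕ :=
  ∑ j : Fin 11, ∑ t : Fin 3, if val γ cg (nb j t) = cg j then 0 else 1

def innT (γ : Bool) (cg : Fin 11 → Bool) (b : Bool) : Option (Fin 11) → ℕ
  | none => 0
  | some k => if cg k = b ∧ mdL γ cg k = 2 then 1 else 0

def innL (γ : Bool) (cg : Fin 11 → Bool) (b : Bool) : ℕ :=
  ∑ j : Fin 11, if cg j = b ∧ mdL γ cg j = 2 then ∑ t : Fin 3, innT γ cg b (nb j t) else 0

def cntL (cg : Fin 11 → Bool) (b : Bool) : ℕ := ∑ j : Fin 11, if cg j = b then 1 else 0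

/-- the 14 edges that avoid the root -/
def p14 : Fin 14 → Fin 11 := ![3, 3, 4, 4, 1, 2, 5, 5, 6, 6, 7, 7, 8, 8]
def q14 : Fin 14 → Fin 11 := ![1, 2, 1, 2, 5, 6, 7, 8, 9, 10, 9, 10, 9, 10]

def cut14 (cg : Fin 11 → Bool) : ℕ := ∑ i : Fin 14, if cg (p14 i) = cg (q14 i) then 0 else 1


def Hyp (γ : Bool) (cg : Fin 11 → Bool) : Prop :=
  (∀ j, mdL γ cg j ≤ 2) ∧
  ¬ (cg 7 = cg 8 ∧ cg 8 = cg 9 ∧ cg 9 = cg 10) ∧
  ¬ (cg 3 = cg 4 ∧ cg 0 ≠ cg 3 ∧ cg 1 ≠ cg 3 ∧ cg 2 ≠ cg 3) ∧
  ¬ (cg 7 = cg 8 ∧ cg 9 ≠ cg 7 ∧ cg 10 ≠ cg 7 ∧ cg 5 ≠ cg 7) ∧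
  ¬ (cg 9 = cg 10 ∧ cg 7 ≠ cg 9 ∧ cg 8 ≠ cg 9 ∧ cg 6 ≠ cg 9) ∧
  cut14 cg ≤ 10

instance (γ : Bool) (cg : Fin 11 → Bool) : Decidable (Hyp γ cg) := by
  unfold Hyp; infer_instance

def Fine (γ : Bool) (cg : Fin 11 → Bool) : Prop :=
    (cntL cg (cg 0) = 7 ∧ cntL cg (!cg 0) = 4 ∧ innL γ cg (cg 0) = innL γ cg (!cg 0) + 2) ∨
    (cntL cg (cg 0) = 5 ∧ cntL cg (!cg 0) = 6 ∧ innL γ cg (cg 0) = innL γ cg (!cg 0))

instance (γ : Bool) (cg : Fin 11 → Bool) : Decidable (Fine γ cg) := by
  unfold Fine; infer_instance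

def Good (γ : Bool) (cg : Fin 11 → Bool) : Prop :=
  Hyp γ cg → ((γ = cg 0 → cutL γ cg ≤ 20) ∧ (γ ≠ cg 0 → cutL γ cg ≤ 21 ∧ (cutL γ cg = 21 → Fine γ cg)))

instance (γ : Bool) (cg : Fin 11 → Bool) : Decidable (Good γ cg) := by
  unfold Good; infer_instance

theorem check_small : ∀ a b : Fin 64, Good (Nat.testBit (64 * a.val + b.val) 11)
    (fun j => Nat.testBit (64 * a.val + b.val) j.val) := by
  decide +kernel

theorem check_all (γ : Bool) (cg : Fin 11 → Bool) : Good γ cg := by
  set f : Fin 12 → Bool := fun j => if h : j.val < 11 then cg ⟨j.val, h⟩ else γ with hf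
  have hm : Nat.ofBits f < 2 ^ 12 := Nat.ofBits_lt_two_pow f
  have h := check_small ⟨Nat.ofBits f / 64, by omega⟩ ⟨Nat.ofBits f % 64, by omega⟩
  have h64 : 64 * (Nat.ofBits f / 64) + Nat.ofBits f % 64 = Nat.ofBits f := Nat.div_add_mod _ _
  simp only [h64] at h
  have h11 : (Nat.ofBits f).testBit 11 = γ := by
    rw [Nat.testBit_ofBits_lt f 11 (by norm_num)]
    simp [hf]
  have hj : (fun j : Fin 11 => (Nat.ofBits f).testBit j.val) = cg := by
    funext j
    rw [Nat.testBit_ofBits_lt f j.val (by omega)]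
    simp [hf, j.isLt]
  rw [h11, hj] at h
  exact h

/-! ### The graph -/

/-- Vertices of the graph: `none` is the centre, `some (i, j)` is vertex `j` of piece `i`. -/
abbrev V := Option (Fin 3 × Fin 11)

/-- The three neighbours of a vertex. -/
def N : V → Fin 3 → V
  | none, t => some (t, 0)
  | some (i, j), t => (nb j t).map (fun k => (i, k))

/-- The cubic graph on 34 vertices. -/
def G : SimpleGraph V where
  Adj v w := ∃ t, N v t = w
  symm := ⟨by decide +kernel⟩
  loopless := ⟨by decide +kernel⟩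

theorem N_inj : ∀ v, ∀ s t, N v s = N v t → s = t := by decide +kernel

theorem ncard_nbrs (v : V) (P : V → Prop) [DecidablePred P] :
    {w | G.Adj v w ∧ P w}.ncard = ∑ t : Fin 3, if P (N v t) then 1 else 0 := by
  have h : {w | G.Adj v w ∧ P w} = N v '' ((Finset.univ.filter fun t => P (N v t) :
      Finset (Fin 3)) : Set (Fin 3)) := by
    ext w
    simp only [Set.mem_ofPred_eq, Finset.coe_filter, Finset.mem_univ, true_and, Set.mem_image]
    constructor
    · rintro ⟨⟨t, rfl⟩, h⟩; exact ⟨t, h, rfl⟩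
    · rintro ⟨t, h, rfl⟩; exact ⟨⟨t, rfl⟩, h⟩
  rw [h, Set.ncard_image_of_injective _ (fun s t hst => N_inj v s t hst), Set.ncard_coe_finset,
    Finset.card_filter]

theorem cubic (v : V) : (G.neighborSet v).ncard = 3 := by
  have h := ncard_nbrs v (fun _ => True)
  have h2 : {w | G.Adj v w ∧ True} = G.neighborSet v := by
    ext w; simp [SimpleGraph.mem_neighborSet]
  rw [h2] at h
  simpa using h

/-! ### Colourings -/

/-- The class of colour `b`. -/
def cls (c : V → Bool) (b : Bool) : Set V := {v | c v = b}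

/-- Number of neighbours of the own colour. -/
def md (c : V → Bool) (v : V) : ℕ := ∑ t : Fin 3, if c (N v t) = c v then 1 else 0

theorem col_N (c : V → Bool) (i : Fin 3) (j : Fin 11) (t : Fin 3) :
    c (N (some (i, j)) t) = val (c none) (fun k => c (some (i, k))) (nb j t) := by
  have h : N (some (i, j)) t = (nb j t).map (fun k => (i, k)) := rfl
  rw [h]
  cases nb j t <;> rfl

theorem md_some (c : V → Bool) (i : Fin 3) (j : Fin 11) :
    md c (some (i, j)) = mdL (c none) (fun k => c (some (i, k))) j := by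
  unfold md mdL
  simp only [col_N]

theorem induce_nbr (T : Set V) (v : V) (hv : v ∈ T) :
    ((G.induce T).neighborSet ⟨v, hv⟩).ncard = {w | G.Adj v w ∧ w ∈ T}.ncard := by
  have h : {w | G.Adj v w ∧ w ∈ T} =
      (Subtype.val : T → V) '' ((G.induce T).neighborSet ⟨v, hv⟩) := by
    ext w
    simp only [Set.mem_ofPred_eq, Set.mem_image, SimpleGraph.mem_neighborSet]
    constructor
    · rintro ⟨h1, h2⟩; exact ⟨⟨w, h2⟩, h1, rfl⟩
    · rintro ⟨w', h1, rfl⟩; exact ⟨h1, w'.2⟩
  rw [h, Set.ncard_image_of_injective _ Subtype.val_injective]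

theorem induce_nbr_cls (c : V → Bool) (v : V) (b : Bool) (hv : v ∈ cls c b) :
    ((G.induce (cls c b)).neighborSet ⟨v, hv⟩).ncard = md c v := by
  rw [induce_nbr]
  have hv' : c v = b := hv
  have := ncard_nbrs v (fun w => c w = b)
  unfold md
  rw [hv', ← this]
  rfl

/-- Four vertices of the same colour do not form a 4-cycle. -/
theorem no_four {c : V → Bool} {b : Bool} (h : (G.induce (cls c b)).IsAcyclic) (p q r s : V)
    (hpq : G.Adj p q) (hqr : G.Adj q r) (hrs : G.Adj r s) (hsp : G.Adj s p)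
    (hpr : p ≠ r) (hqs : q ≠ s) (cp : c p = b) (cq : c q = b) (cr : c r = b) (cs : c s = b) :
    False := by
  let P : cls c b := ⟨p, cp⟩
  let Q : cls c b := ⟨q, cq⟩
  let R : cls c b := ⟨r, cr⟩
  let S : cls c b := ⟨s, cs⟩
  have h1 : (G.induce (cls c b)).Adj P Q := hpq
  have h2 : (G.induce (cls c b)).Adj Q R := hqr
  have h3 : (G.induce (cls c b)).Adj R S := hrs
  have h4 : (G.induce (cls c b)).Adj S P := hsp
  refine h (Walk.cons h1 (Walk.cons h2 (Walk.cons h3 (Walk.cons h4 Walk.nil)))) ?_
  have n1 : P ≠ Q := h1.ne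
  have n2 : Q ≠ R := h2.ne
  have n3 : R ≠ S := h3.ne
  have n4 : S ≠ P := h4.ne
  have n5 : P ≠ R := fun hh => hpr (congrArg Subtype.val hh)
  have n6 : Q ≠ S := fun hh => hqs (congrArg Subtype.val hh)
  rw [Walk.isCycle_def]
  refine ⟨?_, by simp, ?_⟩
  · rw [Walk.isTrail_def]
    simp [n1, n2, n3, n4, n5, n6, n1.symm, n2.symm, n3.symm, n4.symm, n5.symm, n6.symm]
  · simp [n1, n2, n3, n4, n5, n6, n1.symm, n2.symm, n3.symm, n4.symm, n5.symm, n6.symm]

/-- The number of cross edges among an explicit list of edges of a piece is at most the number of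
vertices they cover. -/
theorem cross_bound {c : V → Bool} {b : Bool}
    (hC : ∀ C : (crossGraph G (cls c b)).ConnectedComponent,
      C.toSimpleGraph.edgeSet.ncard ≤ C.supp.ncard) (i : Fin 3) {n : ℕ} (p q : Fin n → Fin 11)
    (Y : Finset (Fin 11)) (hinj : Function.Injective fun t => s(p t, q t))
    (hY : ∀ t, p t ∈ Y ∧ q t ∈ Y) (hadj : ∀ t, ∃ s, nb (p t) s = some (q t)) :
    (∑ t, if c (some (i, p t)) = c (some (i, q t)) then 0 else 1) ≤ Y.card := by
  classical
  have hι : Function.Injective (fun k : Fin 11 => (some (i, k) : V)) := by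
    intro a b h
    simpa using h
  have h := edges_in_set (crossGraph G (cls c b)) hC
    ((Finset.univ.filter fun t => c (some (i, p t)) ≠ c (some (i, q t))).image
      fun t => s((some (i, p t) : V), some (i, q t)))
    (Y.image fun k => (some (i, k) : V)) ?_
  · rw [Finset.card_image_of_injective _ hι, Finset.card_image_of_injective, Finset.card_filter] at h
    · refine le_trans (le_of_eq (Finset.sum_congr rfl fun t _ => ?_)) h
      by_cases hc : c (some (i, p t)) = c (some (i, q t)) <;> simp [hc]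
    · intro t t' htt
      apply hinj
      have : Sym2.map (fun k : Fin 11 => (some (i, k) : V)) s(p t, q t) =
          Sym2.map (fun k : Fin 11 => (some (i, k) : V)) s(p t', q t') := by
        simpa only [Sym2.map_mk] using htt
      exact Sym2.map.injective hι this
  · intro e he
    simp only [Finset.mem_image, Finset.mem_filter, Finset.mem_univ, true_and] at he
    obtain ⟨t, ht, rfl⟩ := he
    refine ⟨?_, ?_⟩
    · obtain ⟨s, hs⟩ := hadj t
      refine ⟨⟨s, ?_⟩, ?_⟩
      · simp [N, hs]
      · intro hh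
        apply ht
        have h1 : c (some (i, p t)) = b ↔ c (some (i, q t)) = b := hh
        revert h1
        cases c (some (i, p t)) <;> cases c (some (i, q t)) <;> cases b <;> simp
    · intro v hv
      rcases Sym2.mem_iff.1 hv with rfl | rfl
      · exact Finset.mem_image_of_mem _ (hY t).1
      · exact Finset.mem_image_of_mem _ (hY t).2

/-- The number of edges between the two classes, counted twice. -/
theorem cross_total (c : V → Bool) (b : Bool) :
    ∑ v : V, ∑ t : Fin 3, (if c (N v t) = c v then 0 else 1) =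
      2 * (crossGraph G (cls c b)).edgeSet.ncard := by
  classical
  have h := (crossGraph G (cls c b)).sum_degrees_eq_twice_card_edges
  rw [Set.ncard_eq_toFinset_card' (crossGraph G (cls c b)).edgeSet]
  have h' : (crossGraph G (cls c b)).edgeFinset = (crossGraph G (cls c b)).edgeSet.toFinset := by
    ext e; simp
  rw [← h', ← h]
  refine Finset.sum_congr rfl fun v _ => ?_
  have h2 := ncard_nbrs v (fun w => c w ≠ c v)
  have h3 : {w | G.Adj v w ∧ c w ≠ c v} =
      ((crossGraph G (cls c b)).neighborFinset v : Set V) := by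
    ext w
    simp only [Set.mem_ofPred_eq, SimpleGraph.coe_neighborFinset, SimpleGraph.mem_neighborSet]
    have : (v ∈ cls c b ↔ w ∈ cls c b) ↔ (c v = b ↔ c w = b) := Iff.rfl
    constructor
    · rintro ⟨h1, h2⟩
      refine ⟨h1, ?_⟩
      rw [this]
      revert h2
      cases c v <;> cases c w <;> cases b <;> simp
    · rintro ⟨h1, h2⟩
      refine ⟨h1, ?_⟩
      rw [this] at h2
      revert h2
      cases c v <;> cases c w <;> cases b <;> simp
  rw [h3, Set.ncard_coe_finset] at h2
  rw [← SimpleGraph.card_neighborFinset_eq_degree, h2]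
  refine Finset.sum_congr rfl fun t _ => ?_
  by_cases hc : c (N v t) = c v <;> simp [hc]

theorem sum_V (f : V → ℕ) : ∑ v : V, f v = f none + ∑ i : Fin 3, ∑ j : Fin 11, f (some (i, j)) := by
  rw [Fintype.sum_option, Fintype.sum_prod_type]

theorem card_cls (c : V → Bool) (b : Bool) :
    (cls c b).ncard = (if c none = b then 1 else 0) +
      ∑ i : Fin 3, cntL (fun k => c (some (i, k))) b := by
  have h : cls c b = ((Finset.univ.filter fun v => c v = b : Finset V) : Set V) := by
    ext v; simp [cls]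
  rw [h, Set.ncard_coe_finset, Finset.card_filter, sum_V]
  rfl

/-- Pairs of adjacent vertices that both have exactly two neighbours. -/
def innerPairs {W : Type*} (H : SimpleGraph W) : Set (W × W) :=
  {p | H.Adj p.1 p.2 ∧ (H.neighborSet p.1).ncard = 2 ∧ (H.neighborSet p.2).ncard = 2}

theorem nbr_iso {W W' : Type*} {H : SimpleGraph W} {K : SimpleGraph W'} (φ : H ≃g K) (v : W) :
    (K.neighborSet (φ v)).ncard = (H.neighborSet v).ncard := by
  have h : K.neighborSet (φ v) = φ '' H.neighborSet v := by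
    ext w
    simp only [SimpleGraph.mem_neighborSet, Set.mem_image]
    constructor
    · intro hw
      refine ⟨φ.symm w, ?_, φ.apply_symm_apply w⟩
      rw [← φ.map_adj_iff, φ.apply_symm_apply]
      exact hw
    · rintro ⟨u, hu, rfl⟩
      exact φ.map_adj_iff.2 hu
  rw [h, Set.ncard_image_of_injective _ φ.injective]

theorem inner_iso {W W' : Type*} {H : SimpleGraph W} {K : SimpleGraph W'} (φ : H ≃g K) :
    (innerPairs K).ncard = (innerPairs H).ncard := by
  have h : innerPairs K = (Prod.map φ φ) '' innerPairs H := by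
    ext ⟨x, y⟩
    simp only [innerPairs, Set.mem_ofPred_eq, Set.mem_image, Prod.exists, Prod.map_apply,
      Prod.mk.injEq]
    constructor
    · rintro ⟨h1, h2, h3⟩
      refine ⟨φ.symm x, φ.symm y, ⟨?_, ?_, ?_⟩, φ.apply_symm_apply x, φ.apply_symm_apply y⟩
      · rw [← φ.map_adj_iff, φ.apply_symm_apply, φ.apply_symm_apply]; exact h1
      · rw [← nbr_iso φ, φ.apply_symm_apply]; exact h2
      · rw [← nbr_iso φ, φ.apply_symm_apply]; exact h3
    · rintro ⟨a, b, ⟨h1, h2, h3⟩, rfl, rfl⟩
      exact ⟨φ.map_adj_iff.2 h1, by rw [nbr_iso]; exact h2, by rw [nbr_iso]; exact h3⟩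
  rw [h, Set.ncard_image_of_injective _ (φ.injective.prodMap φ.injective)]

theorem inner_cls (c : V → Bool) (b : Bool) :
    (innerPairs (G.induce (cls c b))).ncard =
      ∑ v : V, if c v = b ∧ md c v = 2 then
        ∑ t : Fin 3, (if c (N v t) = b ∧ md c (N v t) = 2 then 1 else 0) else 0 := by
  classical
  have h1 : (Prod.map Subtype.val Subtype.val) '' innerPairs (G.induce (cls c b)) =
      (fun p : V × Fin 3 => (p.1, N p.1 p.2)) ''
        ((Finset.univ.filter fun p : V × Fin 3 => (c p.1 = b ∧ md c p.1 = 2) ∧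
          (c (N p.1 p.2) = b ∧ md c (N p.1 p.2) = 2) : Finset (V × Fin 3)) : Set (V × Fin 3)) := by
    ext ⟨x, y⟩
    simp only [innerPairs, Set.mem_image, Set.mem_ofPred_eq, Prod.exists, Prod.map_apply,
      Prod.mk.injEq, Finset.coe_filter, Finset.mem_univ, true_and]
    constructor
    · rintro ⟨⟨u, hu⟩, ⟨w, hw⟩, ⟨h1, h2, h3⟩, rfl, rfl⟩
      obtain ⟨t, ht⟩ : G.Adj u w := h1
      rw [induce_nbr_cls] at h2 h3
      refine ⟨u, t, ⟨⟨hu, h2⟩, ?_⟩, rfl, ht⟩
      rw [ht]
      exact ⟨hw, h3⟩
    · rintro ⟨u, t, ⟨⟨h1, h2⟩, h3, h4⟩, rfl, rfl⟩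
      refine ⟨⟨u, h1⟩, ⟨N u t, h3⟩, ⟨⟨t, rfl⟩, ?_, ?_⟩, rfl, rfl⟩
      · exact (induce_nbr_cls c u b h1).trans h2
      · exact (induce_nbr_cls c (N u t) b h3).trans h4
  have h2 : (Prod.map (Subtype.val : cls c b → V) (Subtype.val : cls c b → V)).Injective :=
    Subtype.val_injective.prodMap Subtype.val_injective
  rw [← Set.ncard_image_of_injective _ h2, h1, Set.ncard_image_of_injective,
    Set.ncard_coe_finset, Finset.card_filter, Fintype.sum_prod_type]
  · refine Finset.sum_congr rfl fun v _ => ?_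
    by_cases hv : c v = b ∧ md c v = 2 <;> simp [hv]
  · rintro ⟨u, t⟩ ⟨u', t'⟩ h
    simp only [Prod.mk.injEq] at h
    obtain ⟨rfl, h⟩ := h
    rw [N_inj u t t' h]

theorem inner_cls' (c : V → Bool) (b : Bool) (hcut : ∀ i : Fin 3, c none ≠ c (some (i, 0))) :
    (innerPairs (G.induce (cls c b))).ncard =
      ∑ i : Fin 3, innL (c none) (fun k => c (some (i, k))) b := by
  rw [inner_cls, sum_V]
  have h0 : md c none = 0 := by
    unfold md
    refine Finset.sum_eq_zero fun t _ => ?_
    have : N none t = some (t, 0) := rfl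
    rw [this, if_neg (hcut t).symm]
  rw [h0, if_neg (by simp), zero_add]
  refine Finset.sum_congr rfl fun i _ => ?_
  unfold innL
  refine Finset.sum_congr rfl fun j _ => ?_
  rw [md_some]
  by_cases hj : c (some (i, j)) = b ∧ mdL (c none) (fun k => c (some (i, k))) j = 2
  · rw [if_pos hj, if_pos hj]
    refine Finset.sum_congr rfl fun t _ => ?_
    have hN : N (some (i, j)) t = (nb j t).map (fun k => (i, k)) := rfl
    rw [hN]
    cases hnb : nb j t with
    | none =>
      have : ¬ (c (Option.map (fun k => (i, k)) (none : Option (Fin 11))) = b ∧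
          md c (Option.map (fun k => (i, k)) (none : Option (Fin 11))) = 2) := by
        rintro ⟨-, h⟩
        change md c none = 2 at h
        rw [h0] at h
        exact absurd h (by norm_num)
      rw [if_neg this]
      rfl
    | some k =>
      change (if c (some (i, k)) = b ∧ md c (some (i, k)) = 2 then 1 else 0) = _
      rw [md_some]
      rfl
  · rw [if_neg hj, if_neg hj]

theorem compl_cls (c : V → Bool) : (cls c true)ᶜ = cls c false := by
  ext v
  simp [cls]

/-- The three complete bipartite graphs `K_{2,3}` (five vertices, six edges). -/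
theorem six {c : V → Bool} {b : Bool}
    (hC : ∀ C : (crossGraph G (cls c b)).ConnectedComponent,
      C.toSimpleGraph.edgeSet.ncard ≤ C.supp.ncard) (i : Fin 3) (p q : Fin 6 → Fin 11)
    (Y : Finset (Fin 11)) (hY5 : Y.card ≤ 5) (hinj : Function.Injective fun t => s(p t, q t))
    (hY : ∀ t, p t ∈ Y ∧ q t ∈ Y) (hadj : ∀ t, ∃ s, nb (p t) s = some (q t))
    (hcut : ∀ t, c (some (i, p t)) ≠ c (some (i, q t))) : False := by
  have h := cross_bound hC i p q Y hinj hY hadj
  have h6 : (∑ t, if c (some (i, p t)) = c (some (i, q t)) then 0 else 1) = 6 := by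
    rw [Finset.sum_congr rfl (fun t _ => if_neg (hcut t))]
    simp
  omega

theorem hyp_of {c : V → Bool} (hf : ∀ b, IsLinearForest (G.induce (cls c b)))
    (hC : ∀ C : (crossGraph G (cls c true)).ConnectedComponent,
      C.toSimpleGraph.edgeSet.ncard ≤ C.supp.ncard) (i : Fin 3) :
    Hyp (c none) (fun k => c (some (i, k))) := by
  refine ⟨?_, ?_, ?_, ?_, ?_, ?_⟩
  · intro j
    rw [← md_some]
    have h1 := (hf (c (some (i, j)))).2 ⟨some (i, j), rfl⟩
    exact (induce_nbr_cls c (some (i, j)) (c (some (i, j))) rfl).symm.trans_le h1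
  · rintro ⟨h1, h2, h3⟩
    exact no_four (hf (c (some (i, 10)))).1 (some (i, 7)) (some (i, 9)) (some (i, 8))
      (some (i, 10)) ⟨1, rfl⟩ ⟨2, rfl⟩ ⟨2, rfl⟩ ⟨1, rfl⟩ (by simp) (by simp)
      ((h1.trans h2).trans h3) h3 (h2.trans h3) rfl
  · rintro ⟨h1, h2, h3, h4⟩
    refine six hC i ![3, 3, 3, 4, 4, 4] ![0, 1, 2, 0, 1, 2] {0, 1, 2, 3, 4} (by decide)
      (by decide) (by decide) (by decide) ?_
    intro t
    fin_cases t
    · exact h2.symm
    · exact h3.symm
    · exact h4.symm
    · exact fun h => h2 (h.symm.trans h1.symm)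
    · exact fun h => h3 (h.symm.trans h1.symm)
    · exact fun h => h4 (h.symm.trans h1.symm)
  · rintro ⟨h1, h2, h3, h4⟩
    refine six hC i ![7, 7, 7, 8, 8, 8] ![5, 9, 10, 5, 9, 10] {5, 7, 8, 9, 10} (by decide)
      (by decide) (by decide) (by decide) ?_
    intro t
    fin_cases t
    · exact h4.symm
    · exact h2.symm
    · exact h3.symm
    · exact fun h => h4 (h.symm.trans h1.symm)
    · exact fun h => h2 (h.symm.trans h1.symm)
    · exact fun h => h3 (h.symm.trans h1.symm)
  · rintro ⟨h1, h2, h3, h4⟩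
    refine six hC i ![9, 9, 9, 10, 10, 10] ![6, 7, 8, 6, 7, 8] {6, 7, 8, 9, 10} (by decide)
      (by decide) (by decide) (by decide) ?_
    intro t
    fin_cases t
    · exact h4.symm
    · exact h2.symm
    · exact h3.symm
    · exact fun h => h4 (h.symm.trans h1.symm)
    · exact fun h => h2 (h.symm.trans h1.symm)
    · exact fun h => h3 (h.symm.trans h1.symm)
  · have := cross_bound hC i p14 q14 (Finset.univ.erase 0) (by decide) (by decide) (by decide)
    exact this

theorem no_bisection (S : Set V) : ¬ IsStrongWormaldBisection G S := by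
  classical
  intro h
  obtain ⟨c, rfl⟩ : ∃ c : V → Bool, S = cls c true :=
    ⟨fun v => decide (v ∈ S), by ext v; simp [cls]⟩
  obtain ⟨C₀, hT, hoth⟩ := h.cross
  have htree : C₀.toSimpleGraph.edgeSet.ncard + 1 = C₀.supp.ncard := by
    have h1 := hT.card_edgeFinset
    rw [Set.ncard_eq_toFinset_card' C₀.toSimpleGraph.edgeSet, Set.ncard_eq_toFinset_card' C₀.supp]
    have h2 : C₀.toSimpleGraph.edgeSet.toFinset = C₀.toSimpleGraph.edgeFinset := by
      ext e; simp
    rw [h2, h1, Set.toFinset_card]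
    exact Fintype.card_congr (Equiv.subtypeEquivRight fun _ => Iff.rfl)
  have hC : ∀ C : (crossGraph G (cls c true)).ConnectedComponent,
      C.toSimpleGraph.edgeSet.ncard ≤ C.supp.ncard := by
    intro C
    by_cases hCC : C = C₀
    · subst hCC; omega
    · exact (hoth C hCC).le
  have hE : Nat.card V ≤ (crossGraph G (cls c true)).edgeSet.ncard + 1 :=
    edges_total _ C₀ htree.ge (fun C hCC => (hoth C hCC).ge)
  have hV : Nat.card V = 34 := by simp [V]
  have hf : ∀ b, IsLinearForest (G.induce (cls c b)) := by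
    intro b
    cases b
    · have := h.forest_right
      rwa [compl_cls] at this
    · exact h.forest_left
  have hyp := hyp_of hf hC
  have good := fun i => check_all (c none) (fun k => c (some (i, k))) (hyp i)
  have htot := cross_total c true
  rw [sum_V] at htot
  have hpiece : ∀ i : Fin 3, ∑ j : Fin 11, ∑ t : Fin 3,
      (if c (N (some (i, j)) t) = c (some (i, j)) then 0 else 1) =
        cutL (c none) (fun k => c (some (i, k))) := by
    intro i
    simp only [col_N]
    rfl
  rw [Finset.sum_congr rfl (fun i _ => hpiece i)] at htot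
  have hnone : ∀ t : Fin 3, N none t = some (t, 0) := fun _ => rfl
  simp only [hnone] at htot
  rw [Fin.sum_univ_three, Fin.sum_univ_three] at htot
  have hb : ∀ i : Fin 3, (if c (some (i, 0)) = c none then 0 else 1) +
      cutL (c none) (fun k => c (some (i, k))) ≤ 22 := by
    intro i
    by_cases hi : c (some (i, 0)) = c none
    · have := (good i).1 hi.symm
      rw [if_pos hi]; omega
    · have := ((good i).2 (Ne.symm hi)).1
      rw [if_neg hi]; omega
  have hb0 := hb 0
  have hb1 := hb 1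
  have hb2 := hb 2
  have hall : ∀ i : Fin 3, (if c (some (i, 0)) = c none then 0 else 1) +
      cutL (c none) (fun k => c (some (i, k))) = 22 := by
    intro i
    fin_cases i <;> simp only [Fin.zero_eta, Fin.mk_one, Fin.reduceFinMk] <;> omega
  have hne : ∀ i : Fin 3, c none ≠ c (some (i, 0)) := by
    intro i hi
    have h1 := (good i).1 hi
    have h2 := hall i
    rw [if_pos hi.symm] at h2
    omega
  have hcut : ∀ i : Fin 3, cutL (c none) (fun k => c (some (i, k))) = 21 := by
    intro i
    have h2 := hall i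
    rw [if_neg (hne i).symm] at h2
    omega
  have hfine := fun i => ((good i).2 (hne i)).2 (hcut i)
  have hroot : ∀ i, c (some (i, 0)) = !c none := by
    intro i
    have := hne i
    revert this
    cases c none <;> cases c (some (i, 0)) <;> simp
  -- sizes
  have hcard := h.card_eq
  rw [compl_cls, card_cls, card_cls, Fin.sum_univ_three, Fin.sum_univ_three] at hcard
  -- inner pairs
  obtain ⟨φ⟩ := h.iso
  have hinn := inner_iso φ
  rw [compl_cls, inner_cls' c _ hne, inner_cls' c _ hne, Fin.sum_univ_three,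
    Fin.sum_univ_three] at hinn
  have h0 := hfine 0
  have h1 := hfine 1
  have h2 := hfine 2
  unfold Fine at h0 h1 h2
  simp only [hroot, Bool.not_not] at h0 h1 h2
  generalize c none = γ at *
  cases γ
  · simp only [Bool.not_false] at h0 h1 h2
    simp only [reduceCtorEq, if_true, if_false] at hcard
    omega
  · simp only [Bool.not_true] at h0 h1 h2
    simp only [reduceCtorEq, if_true, if_false] at hcard
    omega

theorem connected : G.Connected := by
  rw [SimpleGraph.connected_iff_exists_forall_reachable]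
  refine ⟨none, ?_⟩
  have step : ∀ v w : V, G.Adj v w → G.Reachable none v → G.Reachable none w :=
    fun v w h1 h2 => h2.trans h1.reachable
  have r0 : ∀ i, G.Reachable none (some (i, 0)) := fun i => step none _ ⟨i, rfl⟩ (Reachable.refl _)
  have r3 : ∀ i, G.Reachable none (some (i, 3)) := fun i => step (some (i, 0)) _ ⟨1, rfl⟩ (r0 i)
  have r4 : ∀ i, G.Reachable none (some (i, 4)) := fun i => step (some (i, 0)) _ ⟨2, rfl⟩ (r0 i)
  have r1 : ∀ i, G.Reachable none (some (i, 1)) := fun i => step (some (i, 3)) _ ⟨1, rfl⟩ (r3 i)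
  have r2 : ∀ i, G.Reachable none (some (i, 2)) := fun i => step (some (i, 3)) _ ⟨2, rfl⟩ (r3 i)
  have r5 : ∀ i, G.Reachable none (some (i, 5)) := fun i => step (some (i, 1)) _ ⟨2, rfl⟩ (r1 i)
  have r6 : ∀ i, G.Reachable none (some (i, 6)) := fun i => step (some (i, 2)) _ ⟨2, rfl⟩ (r2 i)
  have r7 : ∀ i, G.Reachable none (some (i, 7)) := fun i => step (some (i, 5)) _ ⟨1, rfl⟩ (r5 i)
  have r8 : ∀ i, G.Reachable none (some (i, 8)) := fun i => step (some (i, 5)) _ ⟨2, rfl⟩ (r5 i)
  have r9 : ∀ i, G.Reachable none (some (i, 9)) := fun i => step (some (i, 6)) _ ⟨1, rfl⟩ (r6 i)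
  have r10 : ∀ i, G.Reachable none (some (i, 10)) :=
    fun i => step (some (i, 6)) _ ⟨2, rfl⟩ (r6 i)
  intro v
  rcases v with _ | ⟨i, j⟩
  · exact Reachable.refl _
  · fin_cases j
    · exact r0 i
    · exact r1 i
    · exact r2 i
    · exact r3 i
    · exact r4 i
    · exact r5 i
    · exact r6 i
    · exact r7 i
    · exact r8 i
    · exact r9 i
    · exact r10 i

/-- There is a finite connected cubic graph, of order `34 ≡ 2 (mod 4)`, which has no strong Wormald
bisection. -/
theorem result : ∃ (V : Type) (_ : Fintype V) (G : SimpleGraph V),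
    (∀ v, (G.neighborSet v).ncard = 3) ∧ G.Connected ∧ Fintype.card V % 4 = 2 ∧
      Fintype.card V = 34 ∧ ∀ S : Set V, ¬ IsStrongWormaldBisection G S :=
  ⟨V, inferInstance, G, cubic, connected, by simp, by simp, no_bisection⟩

end Pool.Agent.Results.MP_3d7035_co.Counterexample
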